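import Pool.Agent.H69.GN.Stm2

set_option autoImplicit false

namespace Pool.Agent.H89.GN

open Finset Pool.Agent.H69.GN

theorem fct : S_FCT := by
  classical
  intro k par hpar p hp hmono hdiv
  -- description of the divisibility
  have hkey : ∀ a b : Fin (k + 1), p a ∣ p b - 1 → ∃ i : Fin k, a = i.castSucc ∧ b = par i := by
    intro a b hab
    have h3 := (hp b).2
    have hle : p a ≤ p b - 1 := Nat.le_of_dvd (by omega) hab
    have hlt : a < b := hmono.lt_iff_lt.1 (by omega)
    have hne : a ≠ Fin.last k := fun h => by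
      rw [h] at hlt
      exact absurd (Fin.le_last b) (not_le.2 hlt)
    obtain ⟨i, hi⟩ := Fin.exists_castSucc_eq.2 hne
    refine ⟨i, hi.symm, ?_⟩
    rw [← hi] at hab hlt
    exact (hdiv i b hlt).1 hab
  have hdvd : ∀ i : Fin k, p i.castSucc ∣ p (par i) - 1 := fun i =>
    (hdiv i (par i) (hpar i)).2 rfl
  have hinj : Function.Injective p := hmono.injective
  refine ⟨⟨?_, ?_⟩, ?_⟩
  · intro q hq
    obtain ⟨a, -, rfl⟩ := mem_image.1 hq
    exact hp a
  · intro x hx q hq q' hq' h1 h2
    obtain ⟨a, -, rfl⟩ := mem_image.1 hx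
    obtain ⟨b, -, rfl⟩ := mem_image.1 hq
    obtain ⟨b', -, rfl⟩ := mem_image.1 hq'
    obtain ⟨i, hi, hb⟩ := hkey a b h1
    obtain ⟨i', hi', hb'⟩ := hkey a b' h2
    have : i = i' := Fin.castSucc_injective k (hi.symm.trans hi')
    rw [hb, hb', this]
  · have hφi : Function.Injective (fun D : Finset (Fin k) => D.image (fun i => p i.castSucc)) :=
      Finset.image_injective (fun i j h => Fin.castSucc_injective k (hinj h))
    rw [← Finset.card_image_of_injective _ hφi]
    unfold f
    congr 1
    ext S
    simp only [mem_filter, mem_powerset, mem_image, mem_univ, true_and]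
    constructor
    · rintro ⟨hS, hSq⟩
      have hmem : ∀ i : Fin k, p i.castSucc ∈ S → p (par i) ∉ S := by
        intro i hi
        obtain ⟨q, hq, hdq⟩ := hSq _ hi
        rw [mem_sdiff] at hq
        obtain ⟨b, -, rfl⟩ := mem_image.1 hq.1
        obtain ⟨i', hi', hb⟩ := hkey _ _ hdq
        have : i = i' := Fin.castSucc_injective k hi'
        rw [this, ← hb]
        exact hq.2
      refine ⟨univ.filter (fun i => p i.castSucc ∈ S), ?_, ?_⟩
      · intro i hi j hj heq
        rw [mem_filter] at hi hj
        apply hmem i hi.2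
        rw [heq]
        exact hj.2
      · ext s
        simp only [mem_image, mem_filter, mem_univ, true_and]
        constructor
        · rintro ⟨i, hi, rfl⟩
          exact hi
        · intro hs
          obtain ⟨a, -, rfl⟩ := mem_image.1 (hS hs)
          obtain ⟨q, hq, hdq⟩ := hSq _ hs
          rw [mem_sdiff] at hq
          obtain ⟨b, -, rfl⟩ := mem_image.1 hq.1
          obtain ⟨i, hi, -⟩ := hkey _ _ hdq
          exact ⟨i, by rw [← hi]; exact hs, by rw [← hi]⟩
    · rintro ⟨D, hD, rfl⟩
      refine ⟨?_, ?_⟩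
      · intro s hs
        obtain ⟨i, -, rfl⟩ := mem_image.1 hs
        exact mem_image.2 ⟨i.castSucc, mem_univ _, rfl⟩
      · intro s hs
        obtain ⟨i, hi, rfl⟩ := mem_image.1 hs
        refine ⟨p (par i), ?_, hdvd i⟩
        rw [mem_sdiff]
        refine ⟨mem_image.2 ⟨par i, mem_univ _, rfl⟩, ?_⟩
        intro hmem
        obtain ⟨j, hj, hjeq⟩ := mem_image.1 hmem
        exact hD i hi j hj (hinj hjeq).symm

end Pool.Agent.H89.GN
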