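import Pool.Agent.H69.GN.Stm2

set_option autoImplicit false

namespace Pool.Agent.H89.GN

open Finset Pool.Agent.H69.GN

theorem ind : S_IND := by
  classical
  intro V _ G k e par hpar hadj
  have hmemS : ∀ (S : Finset V) (i : Fin k), i ∈ e.finsetCongr S ↔ e.symm i ∈ S := by
    intro S i
    rw [Equiv.finsetCongr_apply, mem_map_equiv]
  apply Finset.card_equiv e.finsetCongr
  intro S
  rw [mem_filter, mem_filter]
  simp only [mem_univ, true_and]
  constructor
  · intro hS i hi j hj heq
    rw [hmemS] at hi hj
    have h1 := hpar i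
    rw [heq] at h1
    have hij : i < j := Fin.castSucc_lt_castSucc_iff.1 h1
    exact hS _ hi _ hj ((hadj i j hij).2 heq)
  · intro hD x hx y hy hxy
    have hx' : e x ∈ e.finsetCongr S := by rw [hmemS]; simpa using hx
    have hy' : e y ∈ e.finsetCongr S := by rw [hmemS]; simpa using hy
    rcases lt_trichotomy (e x) (e y) with h | h | h
    · have h2 := (hadj (e x) (e y) h).1 (by simpa using hxy)
      exact hD _ hx' _ hy' h2
    · exact hxy.ne (e.injective h)
    · have h2 := (hadj (e y) (e x) h).1 (by simpa using hxy.symm)
      exact hD _ hy' _ hx' h2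

end Pool.Agent.H89.GN
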